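import Pool.Agent.Helper64.RF.GoalsF

/-!
Packet NEM of PROJECT RF (MP_c98eff_gt, for helper64): curried smooth functions are smooth into the
Banach space of continuous functions on [0,1].
-/

namespace Pool.Agent.Helper90.RF

open Pool.Agent.Helper64.RF Set Metric

/-- the curried map -/
noncomputable def cur {V F : Type} [NormedAddCommGroup V] [NormedAddCommGroup F]
    (a : V → ℝ → F) (h : Continuous (fun p : V × ℝ => a p.1 p.2)) :
    C(V, C(Icc (0:ℝ) 1, F)) :=
  ContinuousMap.curry
    ⟨fun p : V × Icc (0:ℝ) 1 => a p.1 (p.2 : ℝ),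
      h.comp (continuous_fst.prodMk (continuous_subtype_val.comp continuous_snd))⟩

theorem cur_apply {V F : Type} [NormedAddCommGroup V] [NormedAddCommGroup F]
    (a : V → ℝ → F) (h : Continuous (fun p : V × ℝ => a p.1 p.2)) (ξ : V) (s : Icc (0:ℝ) 1) :
    cur a h ξ s = a ξ s := rfl

/-- the canonical map `C([0,1], V →L F) →L (V →L C([0,1], F))`. -/
noncomputable def Lam (V F : Type) [NormedAddCommGroup V] [NormedSpace ℝ V]
    [NormedAddCommGroup F] [NormedSpace ℝ F] :
    C(Icc (0:ℝ) 1, V →L[ℝ] F) →L[ℝ] (V →L[ℝ] C(Icc (0:ℝ) 1, F)) :=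
  LinearMap.mkContinuous₂
    (LinearMap.mk₂ ℝ
      (fun (T : C(Icc (0:ℝ) 1, V →L[ℝ] F)) (v : V) =>
        (⟨fun s => T s v, T.continuous.clm_apply continuous_const⟩ : C(Icc (0:ℝ) 1, F)))
      (by intro T T' v; ext s; rfl)
      (by intro c T v; ext s; rfl)
      (by intro T v w; ext s; exact map_add (T s) v w)
      (by intro c T v; ext s; exact map_smul (T s) c v))
    1
    (by
      intro T v
      rw [one_mul]
      rw [ContinuousMap.norm_le _ (by positivity)]
      intro s
      exact (ContinuousLinearMap.le_opNorm (T s) v).trans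
        (mul_le_mul_of_nonneg_right (T.norm_coe_le_norm s) (norm_nonneg v)))

theorem Lam_apply {V F : Type} [NormedAddCommGroup V] [NormedSpace ℝ V]
    [NormedAddCommGroup F] [NormedSpace ℝ F] (T : C(Icc (0:ℝ) 1, V →L[ℝ] F)) (v : V)
    (s : Icc (0:ℝ) 1) : Lam V F T v s = T s v := rfl

theorem cur_hasFDerivAt {V F : Type} [NormedAddCommGroup V] [NormedSpace ℝ V]
    [NormedAddCommGroup F] [NormedSpace ℝ F] (a : V → ℝ → F) (a' : V → ℝ → (V →L[ℝ] F))
    (h : Continuous (fun p : V × ℝ => a p.1 p.2))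
    (h' : Continuous (fun p : V × ℝ => a' p.1 p.2))
    (hd : ∀ ξ s, HasFDerivAt (fun η => a η s) (a' ξ s) ξ) (ξ : V) :
    HasFDerivAt (fun η => cur a h η) (Lam V F (cur a' h' ξ)) ξ := by
  rw [hasFDerivAt_iff_isLittleO, Asymptotics.isLittleO_iff]
  intro c hc
  have h1 : ∀ᶠ η in nhds ξ, dist (cur a' h' η) (cur a' h' ξ) < c :=
    (cur a' h').continuous.continuousAt.eventually (ball_mem_nhds _ hc)
  obtain ⟨δ, hδ, hball⟩ := Metric.eventually_nhds_iff_ball.1 h1
  filter_upwards [ball_mem_nhds ξ hδ] with η hη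
  rw [ContinuousMap.norm_le _ (by positivity)]
  intro s
  have key := Convex.norm_image_sub_le_of_norm_hasFDerivWithin_le'
    (f := fun η => a η s) (f' := fun η => a' η s) (φ := a' ξ s) (C := c) (s := ball ξ δ)
    (x := ξ) (y := η)
    (fun x _ => (hd x s).hasFDerivWithinAt)
    (fun x hx => by
      have h2 := hball x hx
      rw [dist_eq_norm] at h2
      have h3 := (cur a' h' x - cur a' h' ξ).norm_coe_le_norm s
      have h4 : (cur a' h' x - cur a' h' ξ) s = a' x s - a' ξ s := rfl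
      rw [h4] at h3
      exact h3.trans h2.le)
    (convex_ball ξ δ) (mem_ball_self hδ) hη
  exact key

theorem cur_contDiff (V : Type) [NormedAddCommGroup V] [NormedSpace ℝ V] (n : ℕ) :
    ∀ (F : Type) [NormedAddCommGroup F] [NormedSpace ℝ F] (a : V → ℝ → F)
      (h : ContDiff ℝ n (fun p : V × ℝ => a p.1 p.2)),
      ContDiff ℝ n (fun η => cur a h.continuous η) := by
  induction n with
  | zero =>
    intro F _ _ a h
    exact contDiff_zero.2 (cur a h.continuous).continuous
  | succ n ih =>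
    intro F _ _ a h
    have hcast : ((n + 1 : ℕ) : WithTop ℕ∞) = (n : WithTop ℕ∞) + 1 := by
      push_cast
      rfl
    have h0 := h
    rw [hcast] at h0
    obtain ⟨f', hf', hd⟩ := contDiff_succ_iff_hasFDerivAt.1 h0
    let a' : V → ℝ → (V →L[ℝ] F) := fun ξ s => (f' (ξ, s)).comp (ContinuousLinearMap.inl ℝ V ℝ)
    have ha' : ContDiff ℝ n (fun p : V × ℝ => a' p.1 p.2) := by
      have : (fun p : V × ℝ => a' p.1 p.2) = fun p : V × ℝ =>
          (f' p).comp (ContinuousLinearMap.inl ℝ V ℝ) := rfl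
      rw [this]
      exact hf'.clm_comp contDiff_const
    have hda : ∀ ξ s, HasFDerivAt (fun η => a η s) (a' ξ s) ξ := by
      intro ξ s
      have h1 : HasFDerivAt (fun η : V => (η, s)) (ContinuousLinearMap.inl ℝ V ℝ) ξ :=
        hasFDerivAt_prodMk_left ξ s
      exact (hd (ξ, s)).comp ξ h1
    have hcont := h.continuous
    have goal : ContDiff ℝ ((n : WithTop ℕ∞) + 1) (fun η => cur a hcont η) := by
      rw [contDiff_succ_iff_hasFDerivAt]
      refine ⟨fun ξ => Lam V F (cur a' ha'.continuous ξ), ?_, ?_⟩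
      · exact (ContinuousLinearMap.contDiff (𝕜 := ℝ) (E := C(Icc (0:ℝ) 1, V →L[ℝ] F))
          (F := V →L[ℝ] C(Icc (0:ℝ) 1, F)) (Lam V F)).comp (ih (V →L[ℝ] F) a' ha')
      · intro ξ
        exact cur_hasFDerivAt a a' hcont ha'.continuous hda ξ
    rw [← hcast] at goal
    exact goal

theorem nem : NEM := by
  intro V F _ _ _ _ _ a h
  refine ⟨fun ξ => cur a h.continuous ξ, fun ξ s => rfl, ?_⟩
  rw [contDiff_infty]
  intro n
  exact cur_contDiff V n F a (contDiff_infty.1 h n)

end Pool.Agent.Helper90.RF
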