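import Pool.Agent.Helper73.RF.GoalsF

/-!
Packet ONE of PROJECT RF (MP_c98eff_gt, for helper73): one time of a good flow.
-/

set_option autoImplicit false

open Finset

namespace Pool.Agent.Helper90.RF

open Pool.Agent.Helper73.RF

theorem eps_eq (i j k : Fin 3) :
    Pool.Agent.Helper73.RF.eps i j k = Pool.Agent.Helper47.RF.eps i j k := by
  fin_cases i <;> fin_cases j <;> fin_cases k <;>
    norm_num [Pool.Agent.Helper73.RF.eps, Pool.Agent.Helper47.RF.eps]

theorem q_eq (N : Matrix (Fin 3) (Fin 3) ℝ) :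
    ∑ i, ∑ j, N i j ^ 2 - 1 / 3 * (∑ i, N i i) ^ 2
      = ∑ i, ∑ j, (N i j - if i = j then (∑ i, N i i) / 3 else 0) ^ 2 := by
  simp only [Fin.sum_univ_three]
  simp
  ring

theorem entry_le {N : Matrix (Fin 3) (Fin 3) ℝ} {b : ℝ} (hb : 0 ≤ b)
    (h : ∑ i, ∑ j, N i j ^ 2 - 1 / 3 * (∑ i, N i i) ^ 2 ≤ b ^ 2) (i j : Fin 3) :
    |N i j - (if i = j then (∑ i, N i i) / 3 else 0)| ≤ b := by
  rw [q_eq] at h
  refine abs_le_of_sq_le_sq ?_ hb
  refine le_trans ?_ h
  calc (N i j - if i = j then (∑ i, N i i) / 3 else 0) ^ 2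
      ≤ ∑ j, (N i j - if i = j then (∑ i, N i i) / 3 else 0) ^ 2 :=
        Finset.single_le_sum (f := fun j => (N i j - if i = j then (∑ i, N i i) / 3 else 0) ^ 2)
          (fun _ _ => sq_nonneg _) (Finset.mem_univ j)
    _ ≤ ∑ i, ∑ j, (N i j - if i = j then (∑ i, N i i) / 3 else 0) ^ 2 :=
        Finset.single_le_sum
          (f := fun i' => ∑ j, (N i' j - if i' = j then (∑ i, N i i) / 3 else 0) ^ 2)
          (fun _ _ => Finset.sum_nonneg fun _ _ => sq_nonneg _) (Finset.mem_univ i)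

theorem sm_sum {f : Fin 3 → Pool.Agent.Helper47.RF.HH → ℝ}
    (h : ∀ i, Pool.Agent.Helper47.RF.Sm (f i)) :
    Pool.Agent.Helper47.RF.Sm (fun x => ∑ i, f i x) := by
  refine ⟨ContDiffOn.sum fun i _ => (h i).cd, fun r x hr => ?_⟩
  exact Finset.sum_congr rfl fun i _ => (h i).hom r x hr

theorem one (hF : FrnStmt) (hD : Pool.Agent.Helper64.RF.FDG) : OneStmt := by
  intro T κ s0 A θ hT hκ hs0 hfl hG t Q ht0 htT hle hex hbig
  have htI : t ∈ Set.Ico 0 T := ⟨ht0.le, htT⟩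
  have hFrm : Frm (A t) (θ t) :=
    ⟨hfl.inv t htI, fun a i => ((hfl.flA a i).fam.sm t htI), fun i a => ((hfl.flt i a).fam.sm t htI)⟩
  obtain ⟨hmet, -, hNsm, hNsymm, hcurv, -, horth, hgg⟩ := hF (A t) (θ t) hFrm
  set σ : ℝ := 3 * κ ^ 2 with hσ
  have hσ0 : 0 < σ := by positivity
  set D : ℝ := t * Q with hDdef
  -- size of `D`
  have hb1 : (1 : ℝ) < (100000 : ℝ) ^ (2 / σ) :=
    Real.one_lt_rpow (by norm_num) (by positivity)
  have hD1 : 1 < D := lt_of_lt_of_le hb1 hbig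
  have hD0 : 0 < D := lt_trans one_pos hD1
  have hQ : 0 < Q := by
    by_contra h
    push Not at h
    have : D ≤ 0 := mul_nonpos_of_nonneg_of_nonpos ht0.le h
    linarith
  set ε : ℝ := D ^ (-(σ / 2)) with hε
  have hε0 : 0 < ε := Real.rpow_pos_of_pos hD0 _
  have hε1 : ε ≤ 1 / 100000 := by
    have h1 : D ^ (-(σ / 2)) ≤ ((100000 : ℝ) ^ (2 / σ)) ^ (-(σ / 2)) :=
      Real.rpow_le_rpow_of_nonpos (by positivity) hbig (by linarith)
    have h2 : ((100000 : ℝ) ^ (2 / σ)) ^ (-(σ / 2)) = 1 / 100000 := by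
      rw [← Real.rpow_mul (by norm_num)]
      have : 2 / σ * -(σ / 2) = -1 := by field_simp
      rw [this, Real.rpow_neg_one]
      norm_num
    rw [hε, ← h2]
    exact h1
  have hε2 : D ^ (-σ) = ε ^ 2 := by
    rw [hε, sq, ← Real.rpow_add hD0]
    congr 1
    ring
  have h960 : (960 : ℝ) ^ (1 / σ) ≤ D := by
    refine le_trans ?_ hbig
    have h1 : (100000 : ℝ) ^ (2 / σ) = ((100000 : ℝ) ^ (2 : ℝ)) ^ (1 / σ) := by
      rw [← Real.rpow_mul (by norm_num)]
      congr 1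
      ring
    rw [h1]
    exact Real.rpow_le_rpow (by norm_num) (by norm_num) (by positivity)
  have hp3 := hG.p3 t Q ht0 htT hle h960
  -- entries
  have hent : ∀ x, x ≠ 0 → ∀ i j,
      |Nc (A t) (θ t) x i j - (if i = j then sC (A t) (θ t) x / 3 else 0)| ≤ ε * Q := by
    intro x hx i j
    refine entry_le (N := Nc (A t) (θ t) x) (by positivity) ?_ i j
    have h1 := (hp3 x hx).2
    rw [← hσ, ← hDdef, hε2] at h1
    have h2 : (ε * Q) ^ 2 = ε ^ 2 * Q ^ 2 := by ring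
    rw [h2]
    exact h1
  obtain ⟨p, hp0, hpQ⟩ := hex
  have hsm : Pool.Agent.Helper47.RF.Sm (sC (A t) (θ t)) := sm_sum fun i => hNsm i i
  have hmain := hD (gOf (θ t)) hmet (sC (A t) (θ t)) Q (62 * ε) p hsm hQ (by positivity)
    (by linarith) hp0 hpQ (by
      intro x hx
      refine ⟨A t x, Nc (A t) (θ t) x, ⟨horth x, hNsymm x hx, ?_⟩, ?_, ?_⟩
      · intro c d b f
        rw [hcurv x hx c d b f]
        congr 1
        refine Finset.sum_congr rfl fun l _ => Finset.sum_congr rfl fun k _ => ?_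
        rw [eps_eq, eps_eq]
      · have h1 := (hp3 x hx).1
        rw [← hσ, ← hDdef, hε2, hgg] at h1
        have h2 : ∑ a, (∑ i, A t x a i * Pool.Agent.Helper47.RF.E i (sC (A t) (θ t)) x) ^ 2
            = ∑ a, (∑ i, A t x a i * Pool.Agent.Helper47.RF.E i (sC (A t) (θ t)) x)
                * ∑ i, A t x a i * Pool.Agent.Helper47.RF.E i (sC (A t) (θ t)) x :=
          Finset.sum_congr rfl fun a _ => sq _
        rw [h2]
        refine h1.trans ?_
        have h3 : (62 * ε * (Q * Real.sqrt Q)) ^ 2 = 3844 * ε ^ 2 * Q ^ 3 := by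
          have := Real.sq_sqrt hQ.le
          calc (62 * ε * (Q * Real.sqrt Q)) ^ 2 = 3844 * ε ^ 2 * Q ^ 2 * Real.sqrt Q ^ 2 := by ring
            _ = 3844 * ε ^ 2 * Q ^ 3 := by rw [this]; ring
        rw [h3]
        have h4 : 0 ≤ ε ^ 2 * Q ^ 3 := by positivity
        nlinarith
      · intro i j
        refine (hent x hx i j).trans ?_
        nlinarith)
  refine ⟨fun x hx => ⟨?_, ?_⟩, hmain.2⟩
  · have h1 := hmain.1 x hx
    have h2 : -(3 * κ ^ 2 / 2) = -(σ / 2) := by rw [hσ]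
    have h3 : (1 - 11 * (62 * ε)) * Q = (1 - 682 * ε) * Q := by ring
    rw [h3] at h1
    exact h1
  · exact hent x hx

end Pool.Agent.Helper90.RF
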